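import Pool.Agent.helper86.ZD.SpecC
import Pool.Agent.helper63.ED.PW
import Pool.Agent.helper59.DM.DV
import Pool.Agent.helper58.LD.MV

/-!
# Project zd (MP_4467b5_nt), module MVK

The mean value theorem for the `k`-th power of a Dirichlet polynomial at separated points.
-/

set_option autoImplicit false

open Complex MeasureTheory

namespace Pool.Agent.ZD

open Pool.Agent.helper84.DM Pool.Agent.helper78.ED Pool.Agent.DH

theorem MVK_dp (N k M : ℕ) (b : ℕ → ℂ) (u : ℝ) :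
    Pool.Agent.helper6.LD.dp M (fun n => if N ^ k < n then b n else 0) u
      = ∑ n ∈ Finset.Ioc (N ^ k) M, b n * (n : ℂ) ^ (-((u : ℂ) * I)) := by
  unfold Pool.Agent.helper6.LD.dp
  have h1 : ∀ n ∈ Finset.Icc 1 M, (if N ^ k < n then b n else 0) * (n : ℂ) ^ (-((u : ℂ) * I))
      = if N ^ k < n then b n * (n : ℂ) ^ (-((u : ℂ) * I)) else 0 := by
    intro n _
    split_ifs <;> simp
  rw [Finset.sum_congr rfl h1, ← Finset.sum_filter]
  refine Finset.sum_congr ?_ fun _ _ => rfl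
  ext n
  simp only [Finset.mem_filter, Finset.mem_Icc, Finset.mem_Ioc]
  constructor
  · rintro ⟨⟨_, h2⟩, h3⟩
    exact ⟨h3, h2⟩
  · rintro ⟨h2, h3⟩
    exact ⟨⟨by omega, h3⟩, h2⟩

/-- Real number estimate. -/
theorem MVK_real (η : ℝ) (hη : 0 < η) (T M D : ℝ) (hT : 1 ≤ T) (hM : 1 ≤ M) (hD : 0 ≤ D) :
    (T + 1 + 4 * M * (1 + Real.log M)) * (2 + Real.log M ^ 2) * (M * D)
      ≤ (6 + 4 / η) * (2 + 1 / η ^ 2) * ((T + M) * M) * M ^ (3 * η) * D := by
  have hM0 : 0 < M := by linarith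
  have h1 : Real.log M ≤ M ^ η / η := Real.log_le_rpow_div hM0.le hη
  have h0 : 0 ≤ Real.log M := Real.log_nonneg hM
  have hP : 1 ≤ M ^ η := Real.one_le_rpow hM hη.le
  set P := M ^ η with hPd
  have h3 : M ^ (3 * η) = P * P ^ 2 := by
    rw [hPd, ← Real.rpow_natCast (M ^ η) 2, ← Real.rpow_mul hM0.le, ← Real.rpow_add hM0]
    congr 1
    push_cast
    ring
  have h4 : T + 1 + 4 * M * (1 + Real.log M) ≤ (6 + 4 / η) * (T + M) * P := by
    have h5 : 4 * M * (1 + Real.log M) ≤ 4 * M * (P + P / η) :=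
      mul_le_mul_of_nonneg_left (by linarith) (by linarith)
    have h6 : T + 1 ≤ 2 * (T + M) * P := by
      have : T + 1 ≤ 2 * (T + M) := by linarith
      nlinarith
    have h7 : 4 * M * (P + P / η) ≤ (4 + 4 / η) * (T + M) * P := by
      have h8 : 4 * M * (P + P / η) = (4 + 4 / η) * P * M := by
        field_simp
      have h9 : 0 ≤ (4 + 4 / η) * P * T := by positivity
      nlinarith
    nlinarith
  have h5 : 2 + Real.log M ^ 2 ≤ (2 + 1 / η ^ 2) * P ^ 2 := by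
    have h6 : Real.log M ^ 2 ≤ (P / η) ^ 2 := pow_le_pow_left₀ h0 h1 2
    have h7 : (P / η) ^ 2 = 1 / η ^ 2 * P ^ 2 := by field_simp
    nlinarith
  have h6 : 0 ≤ 2 + Real.log M ^ 2 := by positivity
  have h7 : 0 ≤ (6 + 4 / η) * (T + M) * P := by positivity
  have h8 := mul_le_mul h4 h5 h6 h7
  have h9 := mul_le_mul_of_nonneg_right h8 (mul_nonneg hM0.le hD)
  refine h9.trans (le_of_eq ?_)
  rw [h3]
  ring

theorem MVK : MVK_stmt := by
  intro ε k hε hk
  have hk0 : (0 : ℝ) < k := by exact_mod_cast hk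
  set η : ℝ := ε / (k * (3 + 2 * k)) with hηd
  have hη : 0 < η := by positivity
  obtain ⟨C₁, hC₁, hdiv⟩ := divisor_bound η hη
  refine ⟨(6 + 4 / η) * (2 + 1 / η ^ 2) * C₁ ^ (2 * k) * 4 ^ k * 2 ^ ε, by positivity, ?_⟩
  intro T hT W hW N a A V hN hNT hV ha hVW
  have hN0 : (1 : ℝ) ≤ N := by exact_mod_cast hN
  have hA : 0 ≤ A := (norm_nonneg _).trans (ha (N + 1) (Finset.mem_Ioc.2 ⟨by omega, by omega⟩))
  obtain ⟨b, hb, hpow⟩ := pow_poly N hN a A hA ha k hk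
  set M : ℕ := (2 * N) ^ k with hMd
  have hM1 : 1 ≤ M := Nat.one_le_pow _ _ (by omega)
  have hM1r : (1 : ℝ) ≤ M := by exact_mod_cast hM1
  have hM0r : (0 : ℝ) < M := by linarith
  set b' : ℕ → ℂ := fun n => if N ^ k < n then b n else 0 with hb'
  have hdp : ∀ t : ℝ, Pool.Agent.helper6.LD.dp M b' t = DP N a t ^ k := by
    intro t
    rw [hb', MVK_dp]
    exact (hpow ((t : ℂ) * I)).symm
  -- mean value
  have hmv := Pool.Agent.helper6.LD.mean_value M hM1 b' T T (by linarith) W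
    (fun t ht => ⟨(hW.1 t ht).1, by linarith [(hW.1 t ht).2]⟩)
    (fun s hs t ht hst => by
      have := hW.2 s hs t ht hst
      rwa [Real.rpow_zero] at this)
  -- left side
  have hleft : (W.card : ℝ) * V ^ (2 * k) ≤ ∑ t ∈ W, ‖Pool.Agent.helper6.LD.dp M b' t‖ ^ 2 := by
    rw [← nsmul_eq_mul, ← Finset.sum_const]
    refine Finset.sum_le_sum fun t ht => ?_
    rw [hdp, norm_pow, ← pow_mul, mul_comm k 2]
    exact pow_le_pow_left₀ hV (hVW t ht) _
  -- the sum of the squares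
  set D : ℝ := A ^ (2 * k) * C₁ ^ (2 * k) * (M : ℝ) ^ (2 * k * η) with hDd
  have hD : 0 ≤ D := by positivity
  have hsq : ∑ n ∈ Finset.Icc 1 M, ‖b' n‖ ^ 2 ≤ M * D := by
    have h1 : ∀ n ∈ Finset.Icc 1 M, ‖b' n‖ ^ 2 ≤ D := by
      intro n hn
      obtain ⟨hn1, hn2⟩ := Finset.mem_Icc.1 hn
      have hbn : ‖b' n‖ ≤ ‖b n‖ := by
        rw [hb']
        beta_reduce
        split_ifs
        · exact le_rfl
        · simp
      have hd1 : d n ≤ C₁ * (M : ℝ) ^ η := by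
        refine (hdiv n hn1).trans (mul_le_mul_of_nonneg_left ?_ hC₁.le)
        exact Real.rpow_le_rpow (by positivity) (by exact_mod_cast hn2) hη.le
      have hd0 : 0 ≤ d n := by
        unfold d
        positivity
      have h2 : ‖b' n‖ ≤ A ^ k * (C₁ * (M : ℝ) ^ η) ^ k :=
        hbn.trans ((hb n).trans (mul_le_mul_of_nonneg_left (pow_le_pow_left₀ hd0 hd1 k)
          (by positivity)))
      have h3 := pow_le_pow_left₀ (norm_nonneg _) h2 2
      refine h3.trans (le_of_eq ?_)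
      have h4 : (M : ℝ) ^ (2 * k * η) = (((M : ℝ) ^ η) ^ k) ^ 2 := by
        rw [← Real.rpow_natCast ((M : ℝ) ^ η) k, ← Real.rpow_mul hM0r.le,
          ← Real.rpow_natCast _ 2, ← Real.rpow_mul hM0r.le]
        congr 1
        push_cast
        ring
      rw [hDd, h4, mul_pow, mul_pow, mul_pow, ← pow_mul, ← pow_mul, mul_comm k 2]
      ring
    refine (Finset.sum_le_sum h1).trans (le_of_eq ?_)
    rw [Finset.sum_const, Nat.card_Icc, Nat.add_sub_cancel, nsmul_eq_mul]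
  have hlog0 : 0 ≤ Real.log M := Real.log_nonneg hM1r
  have hfac : 0 ≤ (T + 1 + 4 * M * (1 + Real.log M)) * (2 + Real.log M ^ 2) := by positivity
  have h5 := hleft.trans (hmv.trans (mul_le_mul_of_nonneg_left hsq hfac))
  have h6 := h5.trans (MVK_real η hη T M D hT hM1r hD)
  refine h6.trans ?_
  -- the powers
  have hMT : (M : ℝ) ≤ (2 * T) ^ k := by
    rw [hMd]
    push_cast
    exact pow_le_pow_left₀ (by positivity) (by linarith) k
  have h7 : (M : ℝ) ^ (3 * η) * (M : ℝ) ^ (2 * k * η) ≤ 2 ^ ε * T ^ ε := by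
    rw [← Real.rpow_add hM0r, ← Real.mul_rpow (by norm_num) (by linarith)]
    have h8 : 0 ≤ 3 * η + 2 * k * η := by positivity
    refine (Real.rpow_le_rpow hM0r.le hMT h8).trans (le_of_eq ?_)
    rw [← Real.rpow_natCast (2 * T) k, ← Real.rpow_mul (by linarith)]
    congr 1
    rw [hηd]
    field_simp
  have h8 : (T + (M : ℝ)) * M ≤ 4 ^ k * ((T + (N : ℝ) ^ k) * (N : ℝ) ^ k) := by
    have h9 : (M : ℝ) = 2 ^ k * (N : ℝ) ^ k := by
      rw [hMd]
      push_cast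
      rw [mul_pow]
    have h10 : (1 : ℝ) ≤ 2 ^ k := one_le_pow₀ (by norm_num)
    have h11 : (4 : ℝ) ^ k = 2 ^ k * 2 ^ k := by
      rw [← mul_pow]
      norm_num
    have h12 : 0 ≤ (N : ℝ) ^ k := by positivity
    rw [h9, h11]
    have h13 : T + 2 ^ k * (N : ℝ) ^ k ≤ 2 ^ k * (T + (N : ℝ) ^ k) := by nlinarith
    calc (T + 2 ^ k * (N : ℝ) ^ k) * (2 ^ k * (N : ℝ) ^ k)
        ≤ (2 ^ k * (T + (N : ℝ) ^ k)) * (2 ^ k * (N : ℝ) ^ k) :=
          mul_le_mul_of_nonneg_right h13 (by positivity)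
      _ = 2 ^ k * 2 ^ k * ((T + (N : ℝ) ^ k) * (N : ℝ) ^ k) := by ring
  have h9 : (6 + 4 / η) * (2 + 1 / η ^ 2) * ((T + M) * M) * (M : ℝ) ^ (3 * η) * D
      = ((6 + 4 / η) * (2 + 1 / η ^ 2) * C₁ ^ (2 * k) * A ^ (2 * k)) * ((T + M) * M)
        * ((M : ℝ) ^ (3 * η) * (M : ℝ) ^ (2 * k * η)) := by
    rw [hDd]
    ring
  rw [h9]
  have h10 : 0 ≤ (6 + 4 / η) * (2 + 1 / η ^ 2) * C₁ ^ (2 * k) * A ^ (2 * k) := by positivity
  have h11 : ((6 + 4 / η) * (2 + 1 / η ^ 2) * C₁ ^ (2 * k) * A ^ (2 * k)) * ((T + (M : ℝ)) * M)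
      ≤ ((6 + 4 / η) * (2 + 1 / η ^ 2) * C₁ ^ (2 * k) * A ^ (2 * k))
        * (4 ^ k * ((T + (N : ℝ) ^ k) * (N : ℝ) ^ k)) := mul_le_mul_of_nonneg_left h8 h10
  have h12 := mul_le_mul h11 h7 (by positivity) (by positivity)
  refine h12.trans (le_of_eq ?_)
  ring

end Pool.Agent.ZD
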