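import Pool.Agent.helper90.ZD.SpecB

/-!
# Project zd (MP_4467b5_nt), module BC6
-/

set_option autoImplicit false

open Complex MeasureTheory

namespace Pool.Agent.ZD

open Pool.Agent.helper84.DM Pool.Agent.helper78.ED Pool.Agent.DH

theorem BC6_cnt_nonneg (A : Finset ℕ) (z η : ℝ) : 0 ≤ cnt A z η := by
  unfold cnt
  refine Finset.sum_nonneg fun n _ => Finset.sum_nonneg fun m _ => ?_
  split_ifs
  · exact zero_le_one
  · exact le_rfl

theorem BC6_nu (J : Finset ℤ) (x : ℤ → ℝ) (u : ℝ) : ‖nu J x u‖ ≤ (J.card : ℝ) := by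
  unfold nu
  refine (norm_sum_le _ _).trans ?_
  have h : ∀ j ∈ J, ‖Complex.exp (((x j * u : ℝ) : ℂ) * I)‖ ≤ 1 := by
    intro j _
    rw [Complex.norm_exp_ofReal_mul_I]
  refine (Finset.sum_le_sum h).trans (le_of_eq ?_)
  rw [Finset.sum_const, nsmul_eq_mul, mul_one]

theorem BC6 (h1 : BC3_stmt) (h2 : BC5_stmt) : BC6_stmt := by
  intro T η Dn lam W J x h hT hη hW hJ hlam hρ
  have hT0 : 0 < T := by linarith
  have hη0 : 0 < η := lt_of_lt_of_le (by positivity) hη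
  have hDn : 0 ≤ Dn := (Nat.cast_nonneg _).trans (hJ.2 0)
  have h0 : 0 ∉ IL h := by
    unfold IL
    rw [Finset.mem_Ioc]
    omega
  have hQ : 0 ≤ QW W h := by
    unfold QW
    positivity
  have hC : 0 ≤ 20 * T * η * Dn := by positivity
  set K : ℝ := 20 * T * η * Dn * (J.card : ℝ) * QW W h with hK
  have hK0 : 0 ≤ K := by positivity
  have e1 := h1 T η Dn lam W J x (IL h) hT hη hW hJ h0 hlam hρ
  have e2 := h2 T η Dn W J x (IL h) hT hη hW hJ h0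
  have e3 : lam ^ 2 * ∑ i ∈ J, ∑ i' ∈ J, cnt (IL h) (x i - x i') η ≤ K := by
    refine e1.trans ?_
    have e4 : ∑ t ∈ W, ∑ t' ∈ W, ‖nu J x (t - t')‖ * ‖PL (IL h) (t - t')‖ ^ 2
        ≤ (J.card : ℝ) * QW W h := by
      unfold QW
      rw [Finset.mul_sum]
      refine Finset.sum_le_sum fun t _ => ?_
      rw [Finset.mul_sum]
      refine Finset.sum_le_sum fun t' _ => ?_
      exact mul_le_mul_of_nonneg_right (BC6_nu J x _) (by positivity)
    refine (mul_le_mul_of_nonneg_left e4 hC).trans (le_of_eq ?_)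
    rw [hK]
    ring
  have e5 : ∑ i ∈ J, ∑ i' ∈ J, ‖rho W (x i - x i')‖ ^ 2 * cnt (IL h) (x i - x i') η ≤ K :=
    e2.trans (le_of_eq (by rw [hK]; rfl))
  have e6 : (∑ i ∈ J, ∑ i' ∈ J, ‖rho W (x i - x i')‖ * cnt (IL h) (x i - x i') η) ^ 2 ≤
      (∑ i ∈ J, ∑ i' ∈ J, cnt (IL h) (x i - x i') η) *
        ∑ i ∈ J, ∑ i' ∈ J, ‖rho W (x i - x i')‖ ^ 2 * cnt (IL h) (x i - x i') η := by
    rw [← Finset.sum_product', ← Finset.sum_product', ← Finset.sum_product']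
    refine Finset.sum_sq_le_sum_mul_sum_of_sq_eq_mul _ (fun i _ => BC6_cnt_nonneg _ _ _)
      (fun i _ => mul_nonneg (by positivity) (BC6_cnt_nonneg _ _ _)) (fun i _ => ?_)
    ring
  have e7 : 0 ≤ ∑ i ∈ J, ∑ i' ∈ J, ‖rho W (x i - x i')‖ ^ 2 * cnt (IL h) (x i - x i') η :=
    Finset.sum_nonneg fun i _ => Finset.sum_nonneg fun i' _ =>
      mul_nonneg (by positivity) (BC6_cnt_nonneg _ _ _)
  have e8 : (lam * ∑ i ∈ J, ∑ i' ∈ J, ‖rho W (x i - x i')‖ * cnt (IL h) (x i - x i') η) ^ 2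
      ≤ K ^ 2 := by
    rw [mul_pow]
    refine (mul_le_mul_of_nonneg_left e6 (by positivity)).trans ?_
    rw [← mul_assoc, sq K]
    exact mul_le_mul e3 e5 e7 hK0
  exact abs_le_of_sq_le_sq' e8 hK0 |>.2

end Pool.Agent.ZD
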