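import Pool.Agent.helper90.ZD.SpecB
import Pool.Agent.helper78.ED.LV
import Pool.Agent.helper13.DH.EXPN
import Pool.Agent.helper13.DH.RID
import Pool.Agent.helper13.DH.QID
import Pool.Agent.helper95.DH.QLO

/-!
# Project zd (MP_4467b5_nt), module BH1

The first step of the one-sided Halász–Montgomery inequality, `W` form.
-/

set_option autoImplicit false

open Complex MeasureTheory

namespace Pool.Agent.ZD

open Pool.Agent.helper84.DM Pool.Agent.helper78.ED Pool.Agent.DH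

/-- The points `i t`. -/
noncomputable def BH1_Z (W : Finset ℝ) : Finset ℂ := W.image fun t : ℝ => (t : ℂ) * I

theorem BH1_inj (W : Finset ℝ) : ∀ s ∈ W, ∀ t ∈ W, (s : ℂ) * I = (t : ℂ) * I → s = t := by
  intro s _ t _ h
  have h1 := congrArg Complex.im h
  simpa using h1

theorem BH1_QQ (W : Finset ℝ) (L : ℕ) : QQ (BH1_Z W) L = QW W L := by
  have hA : 0 ∉ IL L := by
    unfold IL
    rw [Finset.mem_Ioc]
    omega
  have h1 := Pool.Agent.DH.EXPN Pool.Agent.DH.RID (BH1_Z W) (fun _ => 1) (IL L) (IL L)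
    (fun _ => 1) (fun _ => 1) hA hA
  simp only [one_mul, mul_one, map_one, Complex.ofReal_one] at h1
  have h2 : ((∑ x ∈ IL L, ∑ y ∈ IL L, ‖RR (BH1_Z W) (fun _ => 1) x y‖ ^ 2 : ℝ) : ℂ) =
      ((∑ ρ ∈ BH1_Z W, ∑ ρ' ∈ BH1_Z W, ‖PL (IL L) (ρ.im - ρ'.im)‖ ^ 2 : ℝ) : ℂ) := by
    rw [h1, Complex.ofReal_sum]
    refine Finset.sum_congr rfl fun ρ _ => ?_
    rw [Complex.ofReal_sum]
    refine Finset.sum_congr rfl fun ρ' _ => ?_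
    unfold PL
    rw [Complex.mul_conj']
    push_cast
    rfl
  have h3 : QQ (BH1_Z W) L =
      ∑ ρ ∈ BH1_Z W, ∑ ρ' ∈ BH1_Z W, ‖PL (IL L) (ρ.im - ρ'.im)‖ ^ 2 := by
    unfold QQ
    exact_mod_cast h2
  rw [h3]
  unfold QW BH1_Z
  rw [Finset.sum_image (BH1_inj W)]
  refine Finset.sum_congr rfl fun t _ => ?_
  rw [Finset.sum_image (BH1_inj W)]
  refine Finset.sum_congr rfl fun t' _ => ?_
  simp

theorem BH1_id (W : Finset ℝ) (A : Finset ℕ) (c : ℝ → ℂ) (b : ℕ → ℂ) (f : ℝ → ℂ) (x y : ℕ)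
    (hf : ∀ t ∈ W, f t = c t * DG A b t) :
    RR (BH1_Z W) (fun ρ => f ρ.im) x y = ∑ n ∈ A, b n * RW W c (n * x) y := by
  have h0 : RR (BH1_Z W) (fun ρ => f ρ.im) x y
      = ∑ t ∈ W, f t * ((x : ℂ) ^ (-((t : ℂ) * I)) * (y : ℂ) ^ ((t : ℂ) * I)) := by
    unfold RR BH1_Z
    rw [Finset.sum_image (BH1_inj W)]
    refine Finset.sum_congr rfl fun t _ => ?_
    simp
  rw [h0]
  unfold RW
  have h1 : ∀ t ∈ W, f t * ((x : ℂ) ^ (-((t : ℂ) * I)) * (y : ℂ) ^ ((t : ℂ) * I)) =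
      ∑ n ∈ A, b n * (c t *
        (((n * x : ℕ) : ℂ) ^ (-((t : ℂ) * I)) * (y : ℂ) ^ ((t : ℂ) * I))) := by
    intro t ht
    rw [hf t ht]
    unfold DG
    rw [Finset.mul_sum, Finset.sum_mul]
    refine Finset.sum_congr rfl fun n _ => ?_
    have h2 : (((n * x : ℕ)) : ℂ) ^ (-((t : ℂ) * I)) =
        (n : ℂ) ^ (-((t : ℂ) * I)) * (x : ℂ) ^ (-((t : ℂ) * I)) := by
      rw [Nat.cast_mul, Complex.natCast_mul_natCast_cpow]
    rw [h2]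
    ring
  rw [Finset.sum_congr rfl h1, Finset.sum_comm]
  refine Finset.sum_congr rfl fun n _ => ?_
  rw [Finset.mul_sum]

theorem BH1_cs (s : Finset ℕ) (b g : ℕ → ℂ) :
    ‖∑ n ∈ s, b n * g n‖ ^ 2 ≤ (∑ n ∈ s, ‖b n‖ ^ 2) * ∑ n ∈ s, ‖g n‖ ^ 2 := by
  have h1 : ‖∑ n ∈ s, b n * g n‖ ≤ ∑ n ∈ s, ‖b n‖ * ‖g n‖ := by
    refine (norm_sum_le _ _).trans (le_of_eq ?_)
    exact Finset.sum_congr rfl fun n _ => norm_mul _ _
  have h2 : (∑ n ∈ s, ‖b n‖ * ‖g n‖) ^ 2 ≤ (∑ n ∈ s, ‖b n‖ ^ 2) * ∑ n ∈ s, ‖g n‖ ^ 2 :=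
    Finset.sum_mul_sq_le_sq_mul_sq s (fun n => ‖b n‖) (fun n => ‖g n‖)
  exact (pow_le_pow_left₀ (norm_nonneg _) h1 2).trans h2

theorem BH1 : BH1_stmt := by
  intro W N L b V hV hW
  choose c hc1 hc2 using fun t : ℝ => LV_unim (DG (Finset.Ioc N (4 * N)) b t)
  refine ⟨c, hc1, ?_⟩
  have hZ : ∀ ρ ∈ BH1_Z W, V ≤ ‖DG (Finset.Ioc N (4 * N)) b ρ.im‖ := by
    intro ρ hρ
    unfold BH1_Z at hρ
    obtain ⟨t, ht, rfl⟩ := Finset.mem_image.1 hρ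
    have := hW t ht
    simpa using this
  have h1 := (Pool.Agent.DH.QLO (Pool.Agent.DH.EXPN Pool.Agent.DH.RID)
    (Pool.Agent.DH.QID (Pool.Agent.DH.EXPN Pool.Agent.DH.RID))) (BH1_Z W) (fun ρ => ‖DG (Finset.Ioc N (4 * N)) b ρ.im‖) V L hV hZ
  rw [BH1_QQ] at h1
  refine h1.trans ?_
  have h2 : ∀ x ∈ IL L, ∀ y ∈ IL L,
      ‖RR (BH1_Z W) (fun ρ => ((‖DG (Finset.Ioc N (4 * N)) b ρ.im‖ : ℝ) : ℂ)) x y‖ ^ 2 ≤
      (∑ n ∈ Finset.Ioc N (4 * N), ‖b n‖ ^ 2) *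
        ∑ n ∈ Finset.Ioc N (4 * N), ‖RW W c (n * x) y‖ ^ 2 := by
    intro x _ y _
    rw [BH1_id W (Finset.Ioc N (4 * N)) c b
      (fun t => ((‖DG (Finset.Ioc N (4 * N)) b t‖ : ℝ) : ℂ)) x y (fun t _ => (hc2 t).symm)]
    exact BH1_cs _ _ _
  refine (Finset.sum_le_sum fun x hx => Finset.sum_le_sum fun y hy => h2 x hx y hy).trans
    (le_of_eq ?_)
  have h3 : ∑ n ∈ Finset.Ioc N (4 * N), ∑ x ∈ IL L, ∑ y ∈ IL L, ‖RW W c (n * x) y‖ ^ 2 =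
      ∑ x ∈ IL L, ∑ y ∈ IL L, ∑ n ∈ Finset.Ioc N (4 * N), ‖RW W c (n * x) y‖ ^ 2 := by
    rw [Finset.sum_comm]
    refine Finset.sum_congr rfl fun x _ => ?_
    rw [Finset.sum_comm]
  rw [h3, Finset.mul_sum]
  refine Finset.sum_congr rfl fun x _ => ?_
  rw [Finset.mul_sum]

end Pool.Agent.ZD
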