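import Pool.Agent.helper84.ZD.SpecA
import Pool.Agent.helper24.DH.MONO
import Pool.Agent.helper13.DH.EXPN
import Pool.Agent.helper13.DH.RID

/-!
# Project zd (MP_4467b5_nt), module MONW

Monotonicity of the double sum of the zeta sums, in terms of a finite set of reals.
-/

set_option autoImplicit false

open Complex MeasureTheory

namespace Pool.Agent.ZD

open Pool.Agent.helper84.DM Pool.Agent.helper78.ED Pool.Agent.DH

theorem MONW_sq (Z : Finset ℂ) (A : Finset ℕ) (hA : 0 ∉ A) :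
    ∑ x ∈ A, ∑ y ∈ A, ‖RR Z (fun _ => 1) x y‖ ^ 2
      = ∑ ρ ∈ Z, ∑ ρ' ∈ Z, ‖PL A (ρ.im - ρ'.im)‖ ^ 2 := by
  have h1 := Pool.Agent.DH.EXPN Pool.Agent.DH.RID Z (fun _ => 1) A A (fun _ => 1) (fun _ => 1) hA hA
  simp only [one_mul, mul_one, map_one, Complex.ofReal_one] at h1
  have h2 : ((∑ x ∈ A, ∑ y ∈ A, ‖RR Z (fun _ => 1) x y‖ ^ 2 : ℝ) : ℂ) =
      ((∑ ρ ∈ Z, ∑ ρ' ∈ Z, ‖PL A (ρ.im - ρ'.im)‖ ^ 2 : ℝ) : ℂ) := by
    rw [h1, Complex.ofReal_sum]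
    refine Finset.sum_congr rfl fun ρ _ => ?_
    rw [Complex.ofReal_sum]
    refine Finset.sum_congr rfl fun ρ' _ => ?_
    unfold PL
    rw [Complex.mul_conj']
    push_cast
    rfl
  exact_mod_cast h2

/-- The points `i t`. -/
noncomputable def MONW_Z (W : Finset ℝ) : Finset ℂ := W.image fun t : ℝ => (t : ℂ) * I

theorem MONW_sum (W : Finset ℝ) (A : Finset ℕ) :
    ∑ ρ ∈ MONW_Z W, ∑ ρ' ∈ MONW_Z W, ‖PL A (ρ.im - ρ'.im)‖ ^ 2
      = ∑ t ∈ W, ∑ t' ∈ W, ‖PL A (t - t')‖ ^ 2 := by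
  have hinj : ∀ s ∈ W, ∀ t ∈ W, (s : ℂ) * I = (t : ℂ) * I → s = t := by
    intro s _ t _ h
    have h1 := congrArg Complex.im h
    simpa using h1
  unfold MONW_Z
  rw [Finset.sum_image hinj]
  refine Finset.sum_congr rfl fun t _ => ?_
  rw [Finset.sum_image hinj]
  refine Finset.sum_congr rfl fun t' _ => ?_
  simp

theorem MONW : MONW_stmt := by
  intro W Y L B D hY hYL hB hD
  have hB0 : 0 ∉ B := fun h => by
    have := (hB 0 h).1
    omega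
  have hI0 : 0 ∉ IL L := by
    unfold IL
    rw [Finset.mem_Ioc]
    omega
  have h := Pool.Agent.DH.MONO (MONW_Z W) Y L B D hY hYL hB hD
  unfold QQ at h
  rw [MONW_sq _ _ hB0, MONW_sq _ _ hI0, MONW_sum, MONW_sum] at h
  exact h

end Pool.Agent.ZD
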